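import Mathlib
import Pool.Agent.H529R3.Regressive

set_option autoImplicit false

/-!
# Monochromatic sets for regressive colourings of pairs of branches

`Branch κ` is the set of functions from the ordinals below the cardinal `κ` to `Bool`, `Delta x y`
is the least ordinal at which `x` and `y` differ, and `DeltaRegressive κ c` says that `c` is
symmetric, has colours below `κ` on pairs of different branches, and `c x y < Delta x y` for all
such pairs with `Delta x y > 0`.
-/

open Cardinal Set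

namespace Pool.Agent.Results.MP_553296_lc.Characterization

open Pool.Agent.H529R3

universe u

theorem result (κ : Cardinal.{u}) (hκ : ℵ₀ < κ) :
    (∀ c : Branch κ → Branch κ → Ordinal.{u}, DeltaRegressive κ c →
      ∃ Y : Set (Branch κ), Y.ncard = 4 ∧ ∃ ν : Ordinal.{u},
        ∀ x ∈ Y, ∀ y ∈ Y, x ≠ y → c x y = ν) ∧
    ((∀ c : Branch κ → Branch κ → Ordinal.{u}, DeltaRegressive κ c →
      ∃ Y : Set (Branch κ), Y.Infinite ∧ ∃ ν : Ordinal.{u},
        ∀ x ∈ Y, ∀ y ∈ Y, x ≠ y → c x y = ν) ↔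
      (2 : Cardinal.{u}) ^ ℵ₀ < (2 : Cardinal.{u}) ^ κ) ∧
    ((2 : Cardinal.{u}) ^ ℵ₀ = (2 : Cardinal.{u}) ^ κ →
      ∃ c : Branch κ → Branch κ → Ordinal.{u}, DeltaRegressive κ c ∧
        ∀ (Y : Set (Branch κ)) (ν : Ordinal.{u}),
          (∀ x ∈ Y, ∀ y ∈ Y, x ≠ y → c x y = ν) → Y.Finite ∧ Y.ncard ≤ 4) := by
  refine ⟨fun c hc => exists_four hκ c hc, ⟨fun h => ?_, fun h c hc => ?_⟩, fun h => ?_⟩
  · by_contra hcon
    push Not at hcon
    obtain ⟨c, hc, hsm⟩ := exists_small hκ hcon
    obtain ⟨Y, hY, ν, hν⟩ := h c hc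
    exact hY (hsm Y ν hν).1
  · exact exists_infinite hκ h c hc
  · exact exists_small hκ h.symm.le

end Pool.Agent.Results.MP_553296_lc.Characterization
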